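import Pool.Agent.H316.EM.Stm2
import Mathlib

set_option autoImplicit false

open scoped commutatorElement

namespace Pool.Agent.H824.EM

open Pool.Agent.H316.EM

/-! ### homomorphisms to automorphisms -/

/-- a homomorphism from a group to an endomorphism ring gives automorphisms -/
noncomputable def toE {G X : Type} [Group G] [AddCommGroup X] (f : G →* Module.End ℤ X) : G →* (X ≃ₗ[ℤ] X) :=
  (LinearMap.GeneralLinearGroup.generalLinearEquiv ℤ X).toMonoidHom.comp f.toHomUnits

theorem toE_apply {G X : Type} [Group G] [AddCommGroup X] (f : G →* Module.End ℤ X) (g : G) (x : X) :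
    toE f g x = f g x := rfl

/-! ### modules over the group ring -/

section GR

variable {Λ : Type} [CommGroup Λ]

/-- the endomorphism of an automorphism -/
def eqE {X : Type} [AddCommGroup X] : (X ≃ₗ[ℤ] X) →* Module.End ℤ X where
  toFun f := f.toLinearMap
  map_one' := rfl
  map_mul' _ _ := rfl

noncomputable def liftR {X : Type} [AddCommGroup X] (ρ : Λ →* (X ≃ₗ[ℤ] X)) :
    MonoidAlgebra ℤ Λ →+* Module.End ℤ X :=
  (MonoidAlgebra.lift ℤ (Module.End ℤ X) Λ (eqE.comp ρ)).toRingHom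

theorem liftR_single {X : Type} [AddCommGroup X] (ρ : Λ →* (X ≃ₗ[ℤ] X)) (l : Λ) (n : ℤ) (x : X) :
    liftR ρ (MonoidAlgebra.single l n) x = n • ρ l x := by
  show (MonoidAlgebra.lift ℤ (Module.End ℤ X) Λ (eqE.comp ρ)) (MonoidAlgebra.single l n) x = _
  rw [MonoidAlgebra.lift_single]
  rfl

theorem eval_liftR {N W : Type} [AddCommGroup N] [AddCommGroup W] (c : Λ →* (N ≃ₗ[ℤ] N))
    (ρ : Λ →* (W ≃ₗ[ℤ] W)) (e : W →+ N) (he : ∀ l w, e (ρ l w) = c l (e w)) (r : MonoidAlgebra ℤ Λ) (w : W) :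
    e (liftR ρ r w) = liftR c r (e w) := by
  induction r using MonoidAlgebra.induction_linear with
  | zero => simp
  | add r s hr hs => rw [map_add, map_add, LinearMap.add_apply, LinearMap.add_apply, map_add, hr, hs]
  | single l n => rw [liftR_single, liftR_single, map_zsmul, he]

theorem fg_of_eval [Group.FG Λ] {N W : Type} [AddCommGroup N] [AddCommGroup W] (c : Λ →* (N ≃ₗ[ℤ] N))
    (ρ : Λ →* (W ≃ₗ[ℤ] W)) (hN : ∃ S : Finset N, AddSubgroup.closure {x : N | ∃ l, ∃ s ∈ S, x = c l s} = ⊤)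
    (ι : Type) [Finite ι] (e : ι → (W →+ N)) (he : ∀ i l w, e i (ρ l w) = c l (e i w))
    (hinj : ∀ w, (∀ i, e i w = 0) → w = 0) :
    ∃ S : Finset W, AddSubgroup.closure {x : W | ∃ l, ∃ s ∈ S, x = ρ l s} = ⊤ := by
  classical
  let m1 : Module (MonoidAlgebra ℤ Λ) N := Module.compHom N (liftR c)
  let m2 : Module (MonoidAlgebra ℤ Λ) W := Module.compHom W (liftR ρ)
  have s1 : ∀ (r : MonoidAlgebra ℤ Λ) (x : N), r • x = liftR c r x := fun _ _ => rfl
  have s2 : ∀ (r : MonoidAlgebra ℤ Λ) (x : W), r • x = liftR ρ r x := fun _ _ => rfl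
  have : Monoid.FG Λ := Group.fg_iff_monoid_fg.1 inferInstance
  have : Algebra.FiniteType ℤ (MonoidAlgebra ℤ Λ) := inferInstance
  have : IsNoetherianRing (MonoidAlgebra ℤ Λ) := Algebra.FiniteType.isNoetherianRing ℤ _
  have f1 : Module.Finite (MonoidAlgebra ℤ Λ) N := by
    obtain ⟨S, hS⟩ := hN
    refine ⟨⟨S, ?_⟩⟩
    rw [eq_top_iff]
    intro x _
    have hx : x ∈ AddSubgroup.closure {x : N | ∃ l, ∃ s ∈ S, x = c l s} := by rw [hS]; trivial
    induction hx using AddSubgroup.closure_induction with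
    | mem x hx =>
      obtain ⟨l, s, hs, rfl⟩ := hx
      have h := Submodule.smul_mem (Submodule.span (MonoidAlgebra ℤ Λ) (S : Set N))
        (MonoidAlgebra.single l (1 : ℤ)) (Submodule.subset_span hs)
      rw [s1, liftR_single, one_smul] at h
      exact h
    | zero => exact Submodule.zero_mem _
    | add x y _ _ hx hy => exact Submodule.add_mem _ (hx trivial) (hy trivial)
    | neg x _ hx => exact Submodule.neg_mem _ (hx trivial)
  have : IsNoetherian (MonoidAlgebra ℤ Λ) N := isNoetherian_of_isNoetherianRing_of_finite _ _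
  let f : W →ₗ[MonoidAlgebra ℤ Λ] (ι → N) :=
    { toFun := fun w i => e i w
      map_add' := fun x y => by funext i; exact map_add (e i) x y
      map_smul' := fun r x => by
        funext i
        show e i (r • x) = r • e i x
        rw [s1, s2]
        exact eval_liftR c ρ (e i) (he i) r x }
  have hf : Function.Injective f := by
    rw [injective_iff_map_eq_zero]
    intro w hw
    exact hinj w fun i => congrFun hw i
  have : IsNoetherian (MonoidAlgebra ℤ Λ) W := isNoetherian_of_injective f hf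
  have : Module.Finite (MonoidAlgebra ℤ Λ) W := inferInstance
  obtain ⟨S, hS⟩ := (Module.Finite.fg_top : (⊤ : Submodule (MonoidAlgebra ℤ Λ) W).FG)
  refine ⟨S, ?_⟩
  rw [eq_top_iff]
  set C := AddSubgroup.closure {x : W | ∃ l, ∃ s ∈ S, x = ρ l s} with hC
  have stab1 : ∀ (l : Λ) (x : W), x ∈ C → ρ l x ∈ C := by
    intro l x hx
    induction hx using AddSubgroup.closure_induction with
    | mem x hx =>
      obtain ⟨l', s, hs, rfl⟩ := hx
      refine AddSubgroup.subset_closure ⟨l * l', s, hs, ?_⟩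
      rw [map_mul]
      rfl
    | zero => rw [map_zero]; exact C.zero_mem
    | add x y _ _ hx hy => rw [map_add]; exact C.add_mem hx hy
    | neg x _ hx => rw [map_neg]; exact C.neg_mem hx
  have stab : ∀ (r : MonoidAlgebra ℤ Λ) (x : W), x ∈ C → r • x ∈ C := by
    intro r x hx
    rw [s2]
    induction r using MonoidAlgebra.induction_linear with
    | zero => rw [map_zero]; exact C.zero_mem
    | add r s hr hs => rw [map_add]; exact C.add_mem hr hs
    | single l n => rw [liftR_single]; exact C.zsmul_mem (stab1 l x hx) n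
  intro x _
  have hx : x ∈ Submodule.span (MonoidAlgebra ℤ Λ) (S : Set W) := by rw [hS]; trivial
  induction hx using Submodule.span_induction with
  | mem x hx =>
    refine AddSubgroup.subset_closure ⟨1, x, hx, ?_⟩
    rw [map_one]
    rfl
  | zero => exact C.zero_mem
  | add x y _ _ hx hy => exact C.add_mem (hx trivial) (hy trivial)
  | smul r x _ hx => exact stab r x (hx trivial)

end GR

/-! ### the derived subgroup of a metabelian group -/

section NNs

variable (M : Type) [Group M] (hc : ∀ x ∈ commutator M, ∀ y ∈ commutator M, x * y = y * x)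

/-- the derived subgroup, written additively -/
def NN (_ : ∀ x ∈ commutator M, ∀ y ∈ commutator M, x * y = y * x) : Type := Additive (commutator M)

instance : AddCommGroup (NN M hc) :=
  { (inferInstance : AddGroup (Additive (commutator M))) with
    add_comm := fun x y => by
      have h := hc (Additive.toMul x).1 (Additive.toMul x).2 (Additive.toMul y).1 (Additive.toMul y).2
      exact congrArg Additive.ofMul (Subtype.ext h) }

variable {M hc}

def val (n : NN M hc) : M := (Additive.toMul n).1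

def mk (x : M) (hx : x ∈ commutator M) : NN M hc := Additive.ofMul ⟨x, hx⟩

theorem val_mem (n : NN M hc) : val n ∈ commutator M := (Additive.toMul n).2

theorem val_mk (x : M) (hx : x ∈ commutator M) : val (mk (hc := hc) x hx) = x := rfl

theorem val_add (a b : NN M hc) : val (a + b) = val a * val b := rfl

theorem val_zero : val (0 : NN M hc) = 1 := rfl

theorem val_neg (a : NN M hc) : val (-a) = (val a)⁻¹ := rfl

theorem val_inj {a b : NN M hc} (h : val a = val b) : a = b := by
  have : (Additive.toMul a) = Additive.toMul b := Subtype.ext h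
  exact this

theorem aut_mem (φ : MulAut M) {x : M} (hx : x ∈ commutator M) : φ x ∈ commutator M := by
  have h := (Subgroup.characteristic_iff_le_comap.1 (inferInstance : (commutator M).Characteristic)) φ
  exact h hx

/-- restriction of automorphisms to the derived subgroup -/
noncomputable def rE : MulAut M →* Module.End ℤ (NN M hc) where
  toFun φ := AddMonoidHom.toIntLinearMap
    { toFun := fun n => mk (φ (val n)) (aut_mem φ (val_mem n))
      map_zero' := val_inj (by rw [val_mk, val_zero, map_one, ])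
      map_add' := fun a b => val_inj (by rw [val_mk, val_add, val_add, map_mul, val_mk, val_mk]) }
  map_one' := by
    ext n
    exact val_inj rfl
  map_mul' φ ψ := by
    ext n
    exact val_inj rfl

noncomputable def rN : MulAut M →* (NN M hc ≃ₗ[ℤ] NN M hc) := toE rE

theorem val_rN (φ : MulAut M) (n : NN M hc) : val (rN φ n) = φ (val n) := rfl

theorem rN_conj (φ : MulAut M) (m : M) (n : NN M hc) :
    rN φ (rN (MulAut.conj m) n) = rN (MulAut.conj (φ m)) (rN φ n) := by
  apply val_inj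
  rw [val_rN, val_rN, val_rN, val_rN, MulAut.conj_apply, MulAut.conj_apply, map_mul, map_mul, map_inv]

/-- the action of the abelianization -/
noncomputable def cN : Abelianization M →* (NN M hc ≃ₗ[ℤ] NN M hc) :=
  QuotientGroup.lift (commutator M) (rN.comp MulAut.conj) (by
    intro m hm
    apply LinearEquiv.ext
    intro n
    apply val_inj
    show m * val n * m⁻¹ = val n
    rw [hc m hm _ (val_mem n), mul_assoc, mul_inv_cancel, mul_one])

theorem cN_of (m : M) : cN (hc := hc) (Abelianization.of m) = rN (MulAut.conj m) := rfl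

theorem cN_map (φ : MulAut M) (l : Abelianization M) (n : NN M hc) :
    rN φ (cN l n) = cN (Abelianization.map φ.toMonoidHom l) (rN φ n) := by
  obtain ⟨m, rfl⟩ := QuotientGroup.mk_surjective l
  exact rN_conj φ m n

theorem cN_comm (l : Abelianization M) (x : M) (n : NN M hc) :
    cN l (rN (MulAut.conj x) n) = rN (MulAut.conj x) (cN l n) := by
  rw [← cN_of, ← LinearEquiv.mul_apply, ← map_mul, mul_comm, map_mul]
  rfl

theorem cN_fg (hF : S_FGN) [Group.FG M] :
    ∃ S : Finset (NN M hc), AddSubgroup.closure {x : NN M hc | ∃ l, ∃ s ∈ S, x = cN l s} = ⊤ := by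
  classical
  obtain ⟨S, hS⟩ := hF M
  have hSm : ∀ s ∈ S, s ∈ commutator M := by
    intro s hs
    rw [hS]
    exact Subgroup.subset_closure ⟨1, s, hs, by simp⟩
  refine ⟨S.attach.image fun s => mk s.1 (hSm s.1 s.2), ?_⟩
  rw [eq_top_iff]
  set C := AddSubgroup.closure {x : NN M hc | ∃ l, ∃ s ∈ S.attach.image fun s => mk s.1 (hSm s.1 s.2), x = cN l s}
  have key : ∀ x : M, x ∈ Subgroup.closure {x : M | ∃ m : M, ∃ s ∈ S, x = m * s * m⁻¹} →
      ∃ n : NN M hc, n ∈ C ∧ val n = x := by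
    intro x hx
    induction hx using Subgroup.closure_induction with
    | mem x hx =>
      obtain ⟨m, s, hs, rfl⟩ := hx
      refine ⟨cN (Abelianization.of m) (mk s (hSm s hs)), AddSubgroup.subset_closure ⟨_, mk s (hSm s hs), ?_, rfl⟩, rfl⟩
      exact Finset.mem_image.2 ⟨⟨s, hs⟩, Finset.mem_attach _ _, rfl⟩
    | one => exact ⟨0, C.zero_mem, rfl⟩
    | mul x y _ _ hx hy =>
      obtain ⟨a, ha, rfl⟩ := hx
      obtain ⟨b, hb, rfl⟩ := hy
      exact ⟨a + b, C.add_mem ha hb, rfl⟩
    | inv x _ hx =>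
      obtain ⟨a, ha, rfl⟩ := hx
      exact ⟨-a, C.neg_mem ha, rfl⟩
  intro n _
  obtain ⟨a, ha, hv⟩ := key (val n) (by rw [← hS]; exact val_mem n)
  rw [← val_inj hv]
  exact ha

variable (M hc)

/-- derivations -/
def WW : AddSubgroup (M → NN M hc) where
  carrier := {δ | ∀ x y, δ (x * y) = δ x + rN (MulAut.conj x) (δ y)}
  zero_mem' := by
    intro x y
    show (0 : NN M hc) = 0 + rN (MulAut.conj x) 0
    rw [map_zero, add_zero]
  add_mem' := by
    intro δ ε hδ hε x y
    show δ (x * y) + ε (x * y) = (δ x + ε x) + rN (MulAut.conj x) (δ y + ε y)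
    rw [hδ x y, hε x y, map_add]
    abel
  neg_mem' := by
    intro δ hδ x y
    show -δ (x * y) = -δ x + rN (MulAut.conj x) (-δ y)
    rw [hδ x y, map_neg]
    abel

variable {M hc}

theorem W_one (δ : WW M hc) : δ.1 1 = 0 := by
  have h := δ.2 1 1
  rw [mul_one, map_one, map_one] at h
  exact left_eq_add.1 h

theorem W_inv (δ : WW M hc) (x : M) : δ.1 x⁻¹ = -rN (MulAut.conj x⁻¹) (δ.1 x) := by
  have h := δ.2 x⁻¹ x
  rw [inv_mul_cancel, W_one] at h
  exact (eq_neg_of_add_eq_zero_left h.symm)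

theorem W_ext {δ ε : WW M hc} (h : ∀ x, δ.1 x = ε.1 x) : δ = ε := Subtype.ext (funext h)

noncomputable def aE : MulAut M →* Module.End ℤ (WW M hc) where
  toFun φ := AddMonoidHom.toIntLinearMap
    { toFun := fun δ => ⟨fun x => rN φ (δ.1 (φ⁻¹ x)), by
        intro x y
        show rN φ (δ.1 (φ⁻¹ (x * y))) = rN φ (δ.1 (φ⁻¹ x)) + rN (MulAut.conj x) (rN φ (δ.1 (φ⁻¹ y)))
        rw [map_mul, δ.2, map_add, rN_conj]
        congr 3
        exact congrArg _ (MulAut.apply_inv_self M φ x)⟩
      map_zero' := W_ext fun x => map_zero (rN φ)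
      map_add' := fun δ ε => W_ext fun x => map_add (rN φ) (δ.1 (φ⁻¹ x)) (ε.1 (φ⁻¹ x)) }
  map_one' := by
    apply LinearMap.ext
    intro δ
    apply W_ext
    intro x
    rfl
  map_mul' φ ψ := by
    apply LinearMap.ext
    intro δ
    apply W_ext
    intro x
    show rN (φ * ψ) (δ.1 ((φ * ψ)⁻¹ x)) = rN φ (rN ψ (δ.1 (ψ⁻¹ (φ⁻¹ x))))
    rw [map_mul, mul_inv_rev]
    rfl

noncomputable def aW : MulAut M →* (WW M hc ≃ₗ[ℤ] WW M hc) := toE aE

theorem aW_apply (φ : MulAut M) (δ : WW M hc) (x : M) : (aW φ δ).1 x = rN φ (δ.1 (φ⁻¹ x)) := rfl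

noncomputable def cE : Abelianization M →* Module.End ℤ (WW M hc) where
  toFun l := AddMonoidHom.toIntLinearMap
    { toFun := fun δ => ⟨fun x => cN l (δ.1 x), by
        intro x y
        show cN l (δ.1 (x * y)) = cN l (δ.1 x) + rN (MulAut.conj x) (cN l (δ.1 y))
        rw [δ.2, map_add, cN_comm]⟩
      map_zero' := W_ext fun x => map_zero (cN l)
      map_add' := fun δ ε => W_ext fun x => map_add (cN l) (δ.1 x) (ε.1 x) }
  map_one' := by
    apply LinearMap.ext
    intro δ
    apply W_ext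
    intro x
    show cN 1 (δ.1 x) = δ.1 x
    rw [map_one]
    rfl
  map_mul' l l' := by
    apply LinearMap.ext
    intro δ
    apply W_ext
    intro x
    show cN (l * l') (δ.1 x) = cN l (cN l' (δ.1 x))
    rw [map_mul]
    rfl

noncomputable def cW : Abelianization M →* (WW M hc ≃ₗ[ℤ] WW M hc) := toE cE

theorem cW_apply (l : Abelianization M) (δ : WW M hc) (x : M) : (cW l δ).1 x = cN l (δ.1 x) := rfl

theorem aW_cW (φ : MulAut M) (l : Abelianization M) :
    aW φ * cW (hc := hc) l * (aW φ)⁻¹ = cW (Abelianization.map φ.toMonoidHom l) := by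
  rw [mul_inv_eq_iff_eq_mul]
  apply LinearEquiv.ext
  intro δ
  apply W_ext
  intro x
  exact cN_map φ l (δ.1 (φ⁻¹ x))

theorem cW_fg (hF : S_FGN) [Group.FG M] :
    ∃ S : Finset (WW M hc), AddSubgroup.closure {x : WW M hc | ∃ l, ∃ s ∈ S, x = cW l s} = ⊤ := by
  obtain ⟨T, hT⟩ := (Group.fg_iff.1 (inferInstance : Group.FG M))
  have : Finite T := hT.2
  have : Group.FG (Abelianization M) := QuotientGroup.fg (commutator M)
  refine fg_of_eval cN cW (cN_fg hF) T
    (fun i => { toFun := fun δ => δ.1 i.1, map_zero' := rfl, map_add' := fun _ _ => rfl }) ?_ ?_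
  · intro i l w
    exact cW_apply l w i.1
  · intro δ hδ
    have key : ∀ x : M, x ∈ Subgroup.closure T → δ.1 x = 0 := by
      intro x hx
      induction hx using Subgroup.closure_induction with
      | mem x hx => exact hδ ⟨x, hx⟩
      | one => exact W_one δ
      | mul x y _ _ hx hy => rw [δ.2, hx, hy, map_zero, add_zero]
      | inv x _ hx => rw [W_inv, hx, map_zero, neg_zero]
    apply W_ext
    intro x
    exact key x (by rw [hT.1]; trivial)

end NNs

/-! ### stability of `AA` (copied from helper353) and infinity of `AA` (copied from helper225) -/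

namespace Cp

theorem tA_symm_apply (x : KK) : (tA⁻¹ : Au KK) x = (rK th).symm (algebraMap FB KK (ck 0) * x) := by
  have h : tA ((rK th).symm (algebraMap FB KK (ck 0) * x)) = x := by
    rw [tA_apply, RingEquiv.apply_symm_apply, ← mul_assoc, inv_mul_cancel₀ (ck_ne 0), one_mul]
  conv_lhs => rw [← h]
  exact (LinearEquiv.symm_apply_apply tA _)

theorem tA_inv_FBK : ∀ y ∈ FBK, (tA⁻¹ : Au KK) y ∈ FBK := by
  intro y hy
  obtain ⟨z, rfl⟩ := (mem_FBK y).1 hy
  rw [tA_symm_apply, ← map_mul, mem_FBK]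
  refine ⟨(rF th).symm (ck 0 * z), ?_⟩
  apply (rK th).injective
  rw [rK_algebraMap, RingEquiv.apply_symm_apply, RingEquiv.apply_symm_apply]

theorem conj_mB (b : B) : tA * mB b * tA⁻¹ = mB (th b) := by
  rw [mul_inv_eq_iff_eq_mul]
  ext x
  show tA (mB b x) = mB (th b) (tA x)
  rw [tA_apply, mB_apply, mB_apply, tA_apply, map_mul, rK_algebraMap, rF_eb]
  ring

theorem mB_FBK (b : B) : ∀ y ∈ FBK, mB b y ∈ FBK := by
  intro y hy
  obtain ⟨z, rfl⟩ := (mem_FBK y).1 hy
  rw [mB_apply, ← map_mul, mem_FBK]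
  exact ⟨_, rfl⟩

theorem FBK_mono : Monotone (fun n : ℕ => FBK.map ((tA ^ n : Au KK) : KK →ₗ[ZMod 2] KK)) := by
  apply monotone_nat_of_le_succ
  intro n x hx
  obtain ⟨y, hy, rfl⟩ := Submodule.mem_map.1 hx
  refine Submodule.mem_map.2 ⟨(tA⁻¹ : Au KK) y, tA_inv_FBK y hy, ?_⟩
  show (tA ^ (n + 1)) ((tA⁻¹ : Au KK) y) = (tA ^ n) y
  rw [← LinearEquiv.mul_apply, pow_succ, mul_inv_cancel_right]

theorem mem_AA (x : KK) : x ∈ AA ↔ ∃ n : ℕ, ∃ y ∈ FBK, x = (tA ^ n) y := by
  unfold AA
  rw [Submodule.mem_iSup_of_directed _ FBK_mono.directed_le]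
  constructor
  · rintro ⟨n, hn⟩
    obtain ⟨y, hy, rfl⟩ := Submodule.mem_map.1 hn
    exact ⟨n, y, hy, rfl⟩
  · rintro ⟨n, y, hy, rfl⟩
    exact ⟨n, Submodule.mem_map.2 ⟨y, hy, rfl⟩⟩

theorem conj_pow_mB (n : ℕ) (b : B) : tA ^ n * mB b = mB ((th ^ n) b) * tA ^ n := by
  induction n with
  | zero => simp
  | succ n ih =>
    have h : tA * mB ((th ^ n) b) = mB (th ((th ^ n) b)) * tA := by
      rw [← conj_mB, inv_mul_cancel_right]
    rw [pow_succ', mul_assoc, ih, ← mul_assoc, h, mul_assoc]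
    rw [pow_succ' th, MulAut.mul_apply]

theorem em_aaun : S_AAUN := by
  refine ⟨mem_AA, tA_inv_FBK, ?_, ?_, conj_mB⟩
  · intro b a ha
    obtain ⟨n, y, hy, rfl⟩ := (mem_AA a).1 ha
    rw [mem_AA]
    refine ⟨n, mB ((th ^ n)⁻¹ b) y, mB_FBK _ y hy, ?_⟩
    rw [← LinearEquiv.mul_apply, ← LinearEquiv.mul_apply, conj_pow_mB]
    congr 2
    rw [← MulAut.mul_apply, mul_inv_cancel, MulAut.one_apply]
  · intro a
    constructor
    · intro ha
      obtain ⟨n, y, hy, rfl⟩ := (mem_AA a).1 ha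
      rw [mem_AA]
      exact ⟨n + 1, y, hy, by rw [pow_succ', LinearEquiv.mul_apply]⟩
    · intro ha
      obtain ⟨n, y, hy, h⟩ := (mem_AA _).1 ha
      rw [mem_AA]
      have h1 : a = (tA⁻¹ : Au KK) (tA a) := (LinearEquiv.symm_apply_apply tA a).symm
      rcases n with _ | n
      · refine ⟨0, (tA⁻¹ : Au KK) y, tA_inv_FBK y hy, ?_⟩
        rw [h1, h]
        rfl
      · refine ⟨n, y, hy, ?_⟩
        rw [h1, h, pow_succ', LinearEquiv.mul_apply]
        exact LinearEquiv.symm_apply_apply tA _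

theorem em_fbk_le : FBK ≤ AA := by
  have h : FBK.map ((tA ^ 0 : Au KK) : KK →ₗ[ZMod 2] KK) ≤ AA :=
    le_iSup (fun n : ℕ => FBK.map ((tA ^ n : Au KK) : KK →ₗ[ZMod 2] KK)) 0
  intro x hx
  exact h ⟨x, hx, by rw [pow_zero]; rfl⟩

/-- **AINF.** `AA` is infinite: it contains the images of the elements `eb b`, `b : B`. -/
theorem em_ainf : S_AINF := by
  unfold S_AINF
  have hinf : Infinite B := inferInstanceAs (Infinite (ℤ × ℤ))
  have hinj : Function.Injective fun b : B => algebraMap FB KK (eb b) :=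
    (IsFractionRing.injective FB KK).comp eb_injective
  refine (Set.infinite_range_of_injective hinj).mono ?_
  rintro _ ⟨b, rfl⟩
  exact em_fbk_le ⟨eb b, rfl⟩

end Cp

/-! ### the derivation of an automorphism -/

section Main

variable {M : Type} [Group M] {hc : ∀ x ∈ commutator M, ∀ y ∈ commutator M, x * y = y * x}

/-- trivial on the abelianization and on the derived subgroup -/
def QQ (g : MulAut M) : Prop := (∀ x, g x * x⁻¹ ∈ commutator M) ∧ ∀ x ∈ commutator M, g x = x

theorem QQ_conj {g : MulAut M} (φ : MulAut M) (hg : QQ g) : QQ (φ * g * φ⁻¹) := by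
  refine ⟨fun x => ?_, fun x hx => ?_⟩
  · have h := aut_mem φ (hg.1 (φ⁻¹ x))
    rw [map_mul, map_inv, MulAut.apply_inv_self] at h
    exact h
  · show φ (g (φ⁻¹ x)) = x
    rw [hg.2 _ (aut_mem φ⁻¹ hx), MulAut.apply_inv_self]

variable (hc) in
def dd (g : MulAut M) (hg : QQ g) : WW M hc := ⟨fun x => mk (g x * x⁻¹) (hg.1 x), by
  intro x y
  apply val_inj
  rw [val_add, val_rN, val_mk, val_mk, val_mk, MulAut.conj_apply, map_mul]
  group⟩

theorem val_dd (g : MulAut M) (hg : QQ g) (x : M) : val ((dd hc g hg).1 x) = g x * x⁻¹ := rfl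

theorem dd_congr {g g' : MulAut M} (h : g = g') (hg : QQ g) (hg' : QQ g') : dd hc g hg = dd hc g' hg' := by
  subst h
  rfl

theorem dd_mul (g g' : MulAut M) (hg : QQ g) (hg' : QQ g') (h : QQ (g * g')) :
    dd hc (g * g') h = dd hc g hg + dd hc g' hg' := by
  apply W_ext
  intro x
  apply val_inj
  show g (g' x) * x⁻¹ = (g x * x⁻¹) * (g' x * x⁻¹)
  have h1 : g (g' x) = (g' x * x⁻¹) * g x := by
    have h2 : g' x = (g' x * x⁻¹) * x := by group
    conv_lhs => rw [h2]
    rw [map_mul, hg.2 _ (hg'.1 x)]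
  rw [h1, mul_assoc]
  exact hc _ (hg'.1 x) _ (hg.1 x)

theorem aW_dd (φ g : MulAut M) (hg : QQ g) (h : QQ (φ * g * φ⁻¹)) :
    aW φ (dd hc g hg) = dd hc (φ * g * φ⁻¹) h := by
  apply W_ext
  intro x
  apply val_inj
  show φ (g (φ⁻¹ x) * (φ⁻¹ x)⁻¹) = φ (g (φ⁻¹ x)) * x⁻¹
  rw [map_mul, map_inv, MulAut.apply_inv_self]

theorem dd_inj {g g' : MulAut M} {hg : QQ g} {hg' : QQ g'} (h : dd hc g hg = dd hc g' hg') : g = g' := by
  ext x
  have h1 : val ((dd hc g hg).1 x) = val ((dd hc g' hg').1 x) := by rw [h]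
  rw [val_dd, val_dd] at h1
  exact mul_right_cancel h1

theorem aW_inv (φ : MulAut M) : aW (hc := hc) φ⁻¹ = (aW φ)⁻¹ := map_inv aW φ

end Main

open Classical in
theorem em_der : S_DER := by
  intro hMK hF M _ _ hsol D A₀ hA₀ hfin
  have hc : ∀ x ∈ commutator M, ∀ y ∈ commutator M, x * y = y * x := by
    intro x hx y hy
    have h1 : ⁅x, y⁆ ∈ derivedSeries M 2 := by
      rw [derivedSeries_succ, derivedSeries_one]
      exact Subgroup.commutator_mem_commutator hx hy
    rw [hsol, Subgroup.mem_bot] at h1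
    exact commutatorElement_eq_one_iff_mul_comm.1 h1
  obtain ⟨-, -, AAβ, AAt, -⟩ := Cp.em_aaun
  have hQ : ∀ a ∈ A₀, QQ (D.ia a) := fun a ha => ((hA₀ a).1 ha).2
  have hle : A₀ ≤ AA := fun a ha => ((hA₀ a).1 ha).1
  have hmB : ∀ b, ∀ a ∈ A₀, mB b a ∈ A₀ := by
    intro b a ha
    refine (hA₀ _).2 ⟨AAβ b a (hle ha), ?_⟩
    rw [← D.hβ b a (hle ha)]
    exact QQ_conj (D.β b) (hQ a ha)
  have htA : ∀ a, a ∈ A₀ ↔ tA a ∈ A₀ := by
    intro a
    constructor
    · intro ha
      refine (hA₀ _).2 ⟨(AAt a).1 (hle ha), ?_⟩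
      rw [← D.ht a (hle ha)]
      exact QQ_conj D.t (hQ a ha)
    · intro ha
      have hAa : a ∈ AA := (AAt a).2 (hle ha)
      refine (hA₀ _).2 ⟨hAa, ?_⟩
      have h1 : D.ia a = D.t⁻¹ * D.ia (tA a) * (D.t⁻¹)⁻¹ := by
        rw [← D.ht a hAa]
        group
      rw [h1]
      exact QQ_conj D.t⁻¹ (hQ _ ha)
  let α : KK → WW M hc := fun a => if h : QQ (D.ia a) then dd hc (D.ia a) h else 0
  have hα : ∀ a (ha : a ∈ A₀), α a = dd hc (D.ia a) (hQ a ha) := fun a ha => dif_pos (hQ a ha)
  have hinj : Set.InjOn α A₀ := by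
    intro a ha a' ha' h
    rw [hα a ha, hα a' ha'] at h
    have h1 : D.ia a = D.ia a' := dd_inj h
    have h2 : ∀ x : KK, x + x = 0 := fun x => by
      have h3 : (2 : ZMod 2) • x = 0 := by rw [show (2 : ZMod 2) = 0 from rfl, zero_smul]
      rw [← two_smul (ZMod 2) x]
      exact h3
    have h0 : D.ia 0 = 1 := by
      have h3 := D.iadd 0 AA.zero_mem 0 AA.zero_mem
      rw [add_zero] at h3
      exact left_eq_mul.1 h3
    have h4 : D.ia (a + a') = 1 := by
      rw [D.iadd a (hle ha) a' (hle ha'), h1, ← D.iadd a' (hle ha') a' (hle ha'), h2, h0]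
    have h5 := D.inj _ (AA.add_mem (hle ha) (hle ha')) h4
    rw [add_eq_zero_iff_eq_neg] at h5
    rw [h5, neg_eq_iff_add_eq_zero]
    exact h2 a'
  have hinf : (A₀ : Set KK).Infinite := by
    intro hf
    apply Cp.em_ainf
    have hc1 := AddSubgroup.card_mul_index (A₀.toAddSubgroup.addSubgroupOf AA.toAddSubgroup)
    have hc2 : Nat.card (A₀.toAddSubgroup.addSubgroupOf AA.toAddSubgroup) ≠ 0 := by
      have : Finite A₀ := hf
      have : Finite (A₀.toAddSubgroup.addSubgroupOf AA.toAddSubgroup) :=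
        Finite.of_injective (fun x => (⟨x.1.1, x.2⟩ : A₀)) (by
          intro x y h
          have h' : x.1.1 = y.1.1 := congrArg (fun z : A₀ => (z : KK)) h
          exact Subtype.ext (Subtype.ext h'))
      exact Nat.card_pos.ne'
    have hc3 : Nat.card AA.toAddSubgroup ≠ 0 := by
      rw [← hc1]
      exact mul_ne_zero hc2 hfin
    have hc4 : Finite AA.toAddSubgroup := Nat.finite_of_card_ne_zero hc3
    exact hc4
  have : Group.FG (Abelianization M) := QuotientGroup.fg (commutator M)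
  refine hMK (WW M hc) (Abelianization M) cW (aW.comp D.β) (aW D.t) ?_ ?_ ?_ ?_ (cW_fg hF) A₀ α hle hfin hmB htA
    ?_ ?_ ?_ (hinf.image hinj)
  · intro b
    show aW D.t * aW (D.β b) * (aW D.t)⁻¹ = aW (D.β (th b))
    rw [← aW_inv, ← map_mul, ← map_mul, D.tβ b]
  · intro b l
    exact ⟨_, aW_cW (D.β b) l⟩
  · intro l
    exact ⟨_, aW_cW D.t l⟩
  · intro l
    refine ⟨Abelianization.map (D.t⁻¹).toMonoidHom l, ?_⟩
    have h := aW_cW (hc := hc) D.t⁻¹ l
    rw [aW_inv, inv_inv] at h
    exact h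
  · intro a ha a' ha'
    rw [hα a ha, hα a' ha', hα _ (A₀.add_mem ha ha')]
    have h := D.iadd a (hle ha) a' (hle ha')
    have h1 : QQ (D.ia a * D.ia a') := by rw [← h]; exact hQ _ (A₀.add_mem ha ha')
    rw [dd_congr h _ h1, dd_mul]
  · intro b a ha
    rw [hα a ha, hα _ (hmB b a ha)]
    show _ = aW (D.β b) _
    rw [aW_dd _ _ _ (QQ_conj _ (hQ a ha))]
    exact dd_congr (D.hβ b a (hle ha)).symm _ _
  · intro a ha
    rw [hα a ha, hα _ ((htA a).1 ha)]
    rw [aW_dd _ _ _ (QQ_conj _ (hQ a ha))]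
    exact dd_congr (D.ht a (hle ha)).symm _ _

end Pool.Agent.H824.EM

theorem Pool.Agent.H824.em_der : Pool.Agent.H316.EM.S_DER := Pool.Agent.H824.EM.em_der
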